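import Mathlib
import Pool.Agent.Helper74.Ord.Assembly

/-!
# Residuality of Fréchet smooth norms on subspaces of `C₀(W)`, `W` well-ordered

Let `W` be a well-ordered set of arbitrary cardinality with its order topology (an ordinal interval
`[0, α)`, compact when there is a greatest element).  We prove that for every Banach space `Y`
which is isomorphic to a subspace of `C₀(W)` the set of Fréchet smooth norms is residual in the
space of all equivalent norms of `Y`.

Idea.  The dual of `X = C₀(W)` is `ℓ₁(W)`.  A norm `p` is perturbed to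
`Q(x) = sup { h(x) + r² ∑ |h γ| G_γ(x) : p*(h)² + r ‖h‖₁² + r³ ‖h‖₂² ≤ 1 }`.  The gains `G_γ` are
Day-type seminorms of the jump function `S x θ = (x θ - x (θ+1)) / 2`, with an additional weight
`A(γ, F) > 0` attached to the countably many `γ` in a closed-off set `cl F`, for each finite set
`F` of ordinals.  For a given `x` the excess of `G_γ x` over the common background is positive
exactly on a countable set `M(x)`, and the push-forward under the retraction
`γ ↦ min (M(x) ∩ [γ, ∞))` is `p*`-contractive and leaves `x` invariant.  Near-norming functionals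
of every norm in the ball of radius `r⁸` about `Q` cannot lose mass towards a point of a fibre (the
gain would beat the energy) and are close in each coordinate.  The weights are increased along the
plays of a Banach-Mazur game, and the limit norms of all plays are Fréchet smooth.
-/

set_option autoImplicit false

open scoped ZeroAtInfty
open Pool.Agent.Helper74.Rsd

namespace Pool.Agent.Helper74.Variants.OrdinalResidual

/-- For every Banach space `Y` isomorphic to a subspace of `C₀(W)`, where `W` is a well-ordered set
with its order topology, the norms on `Y` equivalent to the given one and Fréchet differentiable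
off the origin contain a countable intersection of open dense sets of equivalent norms, for the
sup-distance on the unit ball. -/
theorem result
    (W : Type) [LinearOrder W] [WellFoundedLT W] [TopologicalSpace W] [OrderTopology W]
    (Y : Type) [NormedAddCommGroup Y] [NormedSpace ℝ Y] [CompleteSpace Y]
    (T : Y →L[ℝ] C₀(W, ℝ)) (c : ℝ) (hc : 0 < c) (hT : ∀ y : Y, c * ‖y‖ ≤ ‖T y‖)
    (N : Set (Y → ℝ))
    (hN : N = {p : Y → ℝ | (∀ x y : Y, p (x + y) ≤ p x + p y) ∧
            (∀ (c : ℝ) (x : Y), p (c • x) = |c| * p x) ∧
            (∃ a b : ℝ, 0 < a ∧ 0 < b ∧ ∀ x : Y, a * ‖x‖ ≤ p x ∧ p x ≤ b * ‖x‖)}) :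
    ∃ U : ℕ → Set (Y → ℝ),
        (∀ n, U n ⊆ N) ∧
        (∀ n, ∀ p ∈ U n, ∃ ε > (0 : ℝ), ∀ q ∈ N,
            (∀ x : Y, ‖x‖ ≤ 1 → |p x - q x| ≤ ε) → q ∈ U n) ∧
        (∀ n, ∀ p ∈ N, ∀ ε > (0 : ℝ), ∃ q ∈ U n,
            ∀ x : Y, ‖x‖ ≤ 1 → |p x - q x| ≤ ε) ∧
        (∀ p ∈ N, (∀ n, p ∈ U n) → ∀ x : Y, x ≠ 0 → DifferentiableAt ℝ p x) := by
  obtain ⟨U, h1, h2, h3⟩ := Pool.Agent.Helper74.Ord.ordinal W Y T c hc hT
  exact elementary U h1 h2 h3 N hN

end Pool.Agent.Helper74.Variants.OrdinalResidual
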